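import Pool.Agent.helper79.EPT.Spec

set_option autoImplicit false

open scoped Classical

namespace Pool.Agent.EPT

open Finset

theorem DEV (hDEN : DEN_stmt) : DEV_stmt := by
  intro L B y x e hL hB
  have h2 : (0 : ℤ) < 2 ^ e := by positivity
  set y' : ℤ := y / 2 ^ e with hy'
  set z' : ℤ := (y + x) / 2 ^ e with hz'
  have hyz : y' ≤ z' := by
    apply Int.ediv_le_ediv h2
    omega
  set x' : ℕ := (z' - y').toNat with hx'
  have hx'z : y' + (x' : ℤ) = z' := by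
    rw [hx', Int.toNat_of_nonneg (by omega)]
    omega
  have hsub : ((Ioc y (y + x)).filter fun a : ℤ => ∃ a' : ℤ, a = 2 ^ e * a' ∧ (a' % L).toNat ∈ B) ⊆
      ((Ioc y' (y' + x')).filter fun a : ℤ => (a % L).toNat ∈ B).image (fun a' : ℤ => 2 ^ e * a') := by
    intro a ha
    rw [Finset.mem_filter, Finset.mem_Ioc] at ha
    obtain ⟨⟨h3, h4⟩, a', h5, h6⟩ := ha
    rw [Finset.mem_image]
    refine ⟨a', ?_, h5.symm⟩
    rw [Finset.mem_filter, Finset.mem_Ioc, hx'z]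
    refine ⟨⟨?_, ?_⟩, h6⟩
    · rw [hy', Int.ediv_lt_iff_lt_mul h2, mul_comm, ← h5]
      exact h3
    · rw [hz', Int.le_ediv_iff_mul_le h2, mul_comm, ← h5]
      exact h4
  have hc1 : (((Ioc y (y + x)).filter fun a : ℤ => ∃ a' : ℤ, a = 2 ^ e * a' ∧ (a' % L).toNat ∈ B).card : ℝ) ≤
      (((Ioc y' (y' + x')).filter fun a : ℤ => (a % L).toNat ∈ B).card : ℝ) := by
    exact_mod_cast (Finset.card_le_card hsub).trans Finset.card_image_le
  have hden := hDEN L B y' x' hL hB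
  have h7 : z' * 2 ^ e ≤ y + x := Int.ediv_mul_le _ h2.ne'
  have h8 : y < (y' + 1) * 2 ^ e := Int.lt_ediv_add_one_mul_self y h2
  have h9 : ((x' : ℤ) - 1) * 2 ^ e ≤ x := by
    have : (x' : ℤ) = z' - y' := by omega
    rw [this]
    nlinarith
  have h10 : ((x' : ℝ) - 1) * 2 ^ e ≤ x := by exact_mod_cast h9
  have h2r : (0 : ℝ) < 2 ^ e := by positivity
  have hLr : (1 : ℝ) ≤ L := by exact_mod_cast hL
  have h11 : (x' : ℝ) / L ≤ (x : ℝ) / (2 ^ e * L) + 1 := by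
    have hL0 : (0 : ℝ) < L := by linarith
    have h12 : (x' : ℝ) ≤ x / 2 ^ e + 1 := by
      rw [← sub_le_iff_le_add, le_div_iff₀ h2r]
      exact h10
    rw [div_le_iff₀ hL0]
    calc (x' : ℝ) ≤ x / 2 ^ e + 1 := h12
      _ ≤ x / 2 ^ e + L := by linarith
      _ = ((x : ℝ) / (2 ^ e * L) + 1) * L := by
        field_simp
  have hB0 : (0 : ℝ) ≤ B.card := by positivity
  calc (((Ioc y (y + x)).filter fun a : ℤ => ∃ a' : ℤ, a = 2 ^ e * a' ∧ (a' % L).toNat ∈ B).card : ℝ)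
      ≤ (((Ioc y' (y' + x')).filter fun a : ℤ => (a % L).toNat ∈ B).card : ℝ) := hc1
    _ ≤ ((x' : ℝ) / L + 1) * B.card := hden
    _ ≤ ((x : ℝ) / (2 ^ e * L) + 2) * B.card := by
      apply mul_le_mul_of_nonneg_right _ hB0
      linarith

end Pool.Agent.EPT
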